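import Pool.Agent.Q40.KP.Core
import Pool.Agent.Y46.Kc.Near

set_option autoImplicit false

/-!
# Graphs of small bandwidth in a prime number of blocks of size `2 ^ a` (Karp conjecture)
-/

namespace Pool.Agent.Q40.KP

open Finset
open Pool.Agent.H119R2.Kp (GP PV dual pve_map_adj)
open Pool.Agent.Y46.Kc (VV GG tt half_tt relGG PV_emb GG_Bm Bm)

theorem not_split {n q a k r t : ℕ} {P : SimpleGraph (Fin n) → Prop} (hP : GP n q P)
    (hk : k ≠ 0) (hn : r + k * 2 ^ a = n) (h0 : ¬ P (split n t)) :
    ¬ PV P (VV r k (Fin a → ZMod 2)) (GG (split r t) {x | x.val < t} ∅ ∅) := by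
  classical
  have : NeZero k := ⟨hk⟩
  rintro ⟨e, he⟩
  apply h0
  have hc : Fintype.card (ZMod k × (Fin a → ZMod 2)) = k * 2 ^ a := by
    simp [ZMod.card]
  let e₁ : (ZMod k × (Fin a → ZMod 2)) ≃ Fin (k * 2 ^ a) := Fintype.equivFinOfCardEq hc
  let e₀ : VV r k (Fin a → ZMod 2) ≃ Fin n :=
    (Equiv.sumCongr (Equiv.refl (Fin r)) e₁).trans (finSumFinEquiv.trans (finCongr hn))
  have h1 : ∀ x : Fin r, (e₀ (Sum.inl x)).val = x.val := by
    intro x
    simp [e₀]
  refine hP.mono _ _ ?_ (hP.iso (e.symm.trans e₀) _ he)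
  intro x y hxy
  rw [pve_map_adj, pve_map_adj] at hxy
  have hx : e.symm ((e.symm.trans e₀).symm x) = e₀.symm x := by simp
  have hy : e.symm ((e.symm.trans e₀).symm y) = e₀.symm y := by simp
  rw [hx, hy] at hxy
  obtain ⟨u, rfl⟩ := e₀.surjective x
  obtain ⟨v, rfl⟩ := e₀.surjective y
  rw [Equiv.symm_apply_apply, Equiv.symm_apply_apply] at hxy
  refine ⟨fun h => hxy.ne (e₀.injective h), ?_⟩
  rcases u with u | u <;> rcases v with v | v
  · rw [h1, h1]
    exact hxy.2
  · left
    rw [h1]
    exact hxy
  · right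
    rw [h1]
    exact hxy
  · rcases hxy with ⟨_, _, h | h⟩ | ⟨_, h | h⟩ <;> exact h.elim

/-- a prime number of blocks: it is enough that the property holds if all pairs inside the blocks
and all pairs of neighbouring blocks are joined -/
theorem band_rel {n q a k r : ℕ} {P : SimpleGraph (Fin n) → Prop} (hP : GP n q P) (hk : k.Prime)
    (hn : r + k * 2 ^ a = n) (A : SimpleGraph (Fin r)) (S : Set (Fin r))
    (h0 : ¬ PV P (VV r k (Fin a → ZMod 2)) (GG A S ∅ ∅))
    (h1 : PV P (VV r k (Fin a → ZMod 2)) (GG A S Set.univ {1})) :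
    k.choose 2 * (2 ^ a) ^ 2 ≤ q := by
  classical
  by_contra hq
  push Not at hq
  have hF : Fact k.Prime := ⟨hk⟩
  have hk2 := hk.two_le
  have : NeZero k := ⟨by omega⟩
  have h2 : PV P (VV r k (Fin a → ZMod 2)) (GG A S Set.univ ∅) := by
    by_contra h2
    have hall : ∀ I : Finset (Fin (k / 2)), I.Nonempty →
        PV P (VV r k (Fin a → ZMod 2)) (GG A S Set.univ {z | ∃ j ∈ I, z = tt k j}) := by
      rintro I ⟨j, hj⟩
      have hne := (half_tt k).ne j
      refine PV_emb hP.mono (Bm r _ (Units.mk0 (tt k j) hne)) (fun u v huv => ?_) h1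
      refine GG_Bm A S Set.univ {1} _ _ ?_ u v huv
      intro z hz
      rw [Set.mem_singleton_iff] at hz
      left
      refine ⟨j, hj, ?_⟩
      rw [hz, mul_one]
      rfl
    have key := relGG hP 2 a hn (tt k) (half_tt k) hq A S Set.univ
    have hempty : ¬ PV P (VV r k (Fin a → ZMod 2))
        (GG A S Set.univ {z | ∃ j ∈ (∅ : Finset (Fin (k / 2))), z = tt k j}) := by
      have : {z : ZMod k | ∃ j ∈ (∅ : Finset (Fin (k / 2))), z = tt k j} = ∅ := by
        ext z
        simp
      rw [this]
      exact h2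
    have hne : (univ : Finset (Fin (k / 2))).Nonempty := ⟨⟨0, by omega⟩, mem_univ _⟩
    have hsum : ∑ I : Finset (Fin (k / 2)), (-1 : ℤ) ^ I.card = 0 := by
      have := Finset.sum_powerset_neg_one_pow_card (x := (univ : Finset (Fin (k / 2))))
      rw [if_neg hne.ne_empty, Finset.powerset_univ] at this
      exact this
    have h3 : ∑ I : Finset (Fin (k / 2)), (-1 : ℤ) ^ I.card *
        (if PV P (VV r k (Fin a → ZMod 2)) (GG A S Set.univ {z | ∃ j ∈ I, z = tt k j}) then 1 else 0) =
        ∑ I : Finset (Fin (k / 2)), ((-1 : ℤ) ^ I.card - if I = ∅ then 1 else 0) := by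
      refine Finset.sum_congr rfl fun I _ => ?_
      rcases I.eq_empty_or_nonempty with h | h
      · subst h
        rw [if_neg hempty, if_pos rfl]
        simp
      · rw [if_pos (hall I h), if_neg h.ne_empty]
        ring
    rw [h3, Finset.sum_sub_distrib, hsum, Finset.sum_ite_eq' univ (∅ : Finset (Fin (k / 2)))] at key
    simp at key
  have := Pool.Agent.Y46.Kc.two hP a hn A S h0 h2
  omega

theorem band_core {n q a k t : ℕ} {P : SimpleGraph (Fin n) → Prop} (hP : GP n q P) (hk : k.Prime)
    (hkn : t + k * 2 ^ a ≤ n) (h0 : ¬ P (split n t)) (G : SimpleGraph (Fin n)) (hG : P G)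
    (hband : ∀ u v : Fin n, G.Adj u v → u.val < t ∨ v.val < t ∨
      (((u.val - t) / 2 ^ a = (v.val - t) / 2 ^ a ∨
        ((u.val - t) / 2 ^ a + 1) % k = (v.val - t) / 2 ^ a ∨
        ((v.val - t) / 2 ^ a + 1) % k = (u.val - t) / 2 ^ a) ∧ u.val < t + k * 2 ^ a ∧
        v.val < t + k * 2 ^ a)) :
    k.choose 2 * (2 ^ a) ^ 2 ≤ q := by
  classical
  have hF : Fact k.Prime := ⟨hk⟩
  have hk2 := hk.two_le
  have : NeZero k := ⟨by omega⟩
  have hn : n - k * 2 ^ a + k * 2 ^ a = n := Nat.sub_add_cancel (by omega)
  refine band_rel hP hk hn (split _ t) {x | x.val < t} (not_split hP (by omega) hn h0) ?_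
  have hBpos : 0 < 2 ^ a := by positivity
  obtain ⟨B, hB⟩ : ∃ B, B = 2 ^ a := ⟨_, rfl⟩
  have hcW : Fintype.card (Fin a → ZMod 2) = B := by simp [ZMod.card, hB]
  rw [← hB] at hBpos hkn hband
  let ew : Fin B ≃ (Fin a → ZMod 2) := (Fintype.equivFinOfCardEq hcW).symm
  have hlt : ∀ x : ℕ, x % B < B := fun x => Nat.mod_lt _ hBpos
  have hr : n - k * 2 ^ a = n - k * B := by rw [hB]
  let f : Fin n → VV (n - k * 2 ^ a) k (Fin a → ZMod 2) := fun u =>
    if h1 : u.val < t then Sum.inl ⟨u.val, by omega⟩
    else if h2 : u.val < t + k * B then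
      Sum.inr ((((u.val - t) / B : ℕ) : ZMod k), ew ⟨(u.val - t) % B, hlt _⟩)
    else Sum.inl ⟨u.val - k * B, by have := u.2; omega⟩
  have f1 : ∀ u : Fin n, ∀ h1 : u.val < t, f u = Sum.inl ⟨u.val, by omega⟩ := fun u h1 => dif_pos h1
  have f2 : ∀ u : Fin n, ¬ u.val < t → u.val < t + k * B →
      f u = Sum.inr ((((u.val - t) / B : ℕ) : ZMod k), ew ⟨(u.val - t) % B, hlt _⟩) := by
    intro u h1 h2
    simp only [f]
    rw [dif_neg h1, dif_pos h2]
  have f3 : ∀ u : Fin n, ∀ h2 : ¬ u.val < t + k * B,
      f u = Sum.inl ⟨u.val - k * B, by have := u.2; omega⟩ := by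
    intro u h2
    simp only [f]
    rw [dif_neg (by omega), dif_neg h2]
  have hdiv : ∀ u : Fin n, u.val < t + k * B → ¬ u.val < t → (u.val - t) / B < k := by
    intro u h1 h2
    rw [Nat.div_lt_iff_lt_mul hBpos]
    omega
  have hcast : ∀ i j : ℕ, i < k → j < k → ((i : ℕ) : ZMod k) = (j : ℕ) → i = j := by
    intro i j hi hj h
    have := congrArg ZMod.val h
    rwa [ZMod.val_natCast_of_lt hi, ZMod.val_natCast_of_lt hj] at this
  have hinj : Function.Injective f := by
    intro u v huv
    by_cases hu1 : u.val < t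
    · rw [f1 u hu1] at huv
      by_cases hv1 : v.val < t
      · rw [f1 v hv1] at huv
        have := congrArg Fin.val (Sum.inl_injective huv)
        exact Fin.ext this
      · by_cases hv2 : v.val < t + k * B
        · rw [f2 v hv1 hv2] at huv
          exact absurd huv (by simp)
        · rw [f3 v hv2] at huv
          have := congrArg Fin.val (Sum.inl_injective huv)
          simp only at this
          omega
    · by_cases hu2 : u.val < t + k * B
      · rw [f2 u hu1 hu2] at huv
        by_cases hv1 : v.val < t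
        · rw [f1 v hv1] at huv
          exact absurd huv (by simp)
        · by_cases hv2 : v.val < t + k * B
          · rw [f2 v hv1 hv2] at huv
            have h3 := Sum.inr_injective huv
            rw [Prod.mk.injEq] at h3
            have h4 := hcast _ _ (hdiv u hu2 hu1) (hdiv v hv2 hv1) h3.1
            have h5 := congrArg Fin.val (ew.injective h3.2)
            simp only at h5
            have h6 := Nat.div_add_mod (u.val - t) B
            have h7 := Nat.div_add_mod (v.val - t) B
            rw [h4, h5] at h6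
            apply Fin.ext
            omega
          · rw [f3 v hv2] at huv
            exact absurd huv (by simp)
      · rw [f3 u hu2] at huv
        by_cases hv1 : v.val < t
        · rw [f1 v hv1] at huv
          have := congrArg Fin.val (Sum.inl_injective huv)
          simp only at this
          omega
        · by_cases hv2 : v.val < t + k * B
          · rw [f2 v hv1 hv2] at huv
            exact absurd huv (by simp)
          · rw [f3 v hv2] at huv
            have := congrArg Fin.val (Sum.inl_injective huv)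
            simp only at this
            apply Fin.ext
            omega
  have hcard : Fintype.card (Fin n) = Fintype.card (VV (n - k * 2 ^ a) k (Fin a → ZMod 2)) := by
    rw [Fintype.card_sum, Fintype.card_prod, Fintype.card_fin, Fintype.card_fin, ZMod.card, hcW, hr]
    omega
  obtain ⟨g, hg⟩ := extend f univ hinj.injOn hcard
  refine ⟨g.symm, hP.mono _ _ ?_ hG⟩
  intro u v huv
  rw [pve_map_adj]
  simp only [Equiv.symm_symm]
  have hne : g u ≠ g v := fun h => huv.ne (g.injective h)
  have hgu := hg u (mem_univ _)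
  have hgv := hg v (mem_univ _)
  rcases hband u v huv with h | h | ⟨h1, h3, h4⟩
  · rw [hgu, hgv] at hne ⊢
    rw [f1 u h] at hne ⊢
    rcases hfv : f v with y | y
    · refine ⟨fun h' => hne (by rw [hfv, h']), Or.inl h⟩
    · exact h
  · rw [hgu, hgv] at hne ⊢
    rw [f1 v h] at hne ⊢
    rcases hfu : f u with y | y
    · refine ⟨fun h' => hne (by rw [hfu, h']), Or.inr h⟩
    · exact h
  · rw [hgu, hgv] at hne ⊢
    by_cases hu1 : u.val < t
    · rw [f1 u hu1] at hne ⊢
      rcases hfv : f v with y | y
      · refine ⟨fun h' => hne (by rw [hfv, h']), Or.inl hu1⟩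
      · exact hu1
    · by_cases hv1 : v.val < t
      · rw [f1 v hv1] at hne ⊢
        rcases hfu : f u with y | y
        · refine ⟨fun h' => hne (by rw [hfu, h']), Or.inr hv1⟩
        · exact hv1
      · rw [f2 u hu1 h3, f2 v hv1 h4] at hne ⊢
        have hdu := hdiv u h3 hu1
        have hdv := hdiv v h4 hv1
        by_cases heq : (u.val - t) / B = (v.val - t) / B
        · refine Or.inl ⟨?_, ?_, Or.inl trivial⟩
          · change (((u.val - t) / B : ℕ) : ZMod k) = (((v.val - t) / B : ℕ) : ZMod k)
            rw [heq]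
          · intro h6
            apply hne
            have h6' : ew ⟨(u.val - t) % B, hlt _⟩ = ew ⟨(v.val - t) % B, hlt _⟩ := h6
            rw [h6', heq]
        · refine Or.inr ⟨fun h6 => heq (hcast _ _ hdu hdv h6), ?_⟩
          rcases h1 with h5 | h5 | h5
          · exact absurd h5 heq
          · left
            change ((((v.val - t) / B : ℕ) : ZMod k)) - (((u.val - t) / B : ℕ) : ZMod k) ∈ _
            rw [← h5, ZMod.natCast_mod]
            push_cast
            simp
          · right
            change ((((u.val - t) / B : ℕ) : ZMod k)) - (((v.val - t) / B : ℕ) : ZMod k) ∈ _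
            rw [← h5, ZMod.natCast_mod]
            push_cast
            simp

/-- graphs of bandwidth at most the block size -/
theorem adj_of_band {B k x y : ℕ} (hB : 0 < B) (hx : x < k * B) (hy : y < k * B)
    (h1 : x ≤ y + B) (h2 : y ≤ x + B) :
    x / B = y / B ∨ (x / B + 1) % k = y / B ∨ (y / B + 1) % k = x / B := by
  have e1 := Nat.div_add_mod x B
  have e2 := Nat.div_add_mod y B
  have m1 := Nat.mod_lt x hB
  have m2 := Nat.mod_lt y hB
  have d1 : x / B < k := by rwa [Nat.div_lt_iff_lt_mul hB]
  have d2 : y / B < k := by rwa [Nat.div_lt_iff_lt_mul hB]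
  rcases Nat.lt_trichotomy (x / B) (y / B) with h | h | h
  · right
    left
    have h5 : y / B = x / B + 1 := by
      by_contra hcon
      have h6 : x / B + 2 ≤ y / B := by omega
      have h7 := Nat.mul_le_mul_left B h6
      rw [mul_add] at h7
      omega
    rw [← h5]
    exact Nat.mod_eq_of_lt d2
  · exact Or.inl h
  · right
    right
    have h5 : x / B = y / B + 1 := by
      by_contra hcon
      have h6 : y / B + 2 ≤ x / B := by omega
      have h7 := Nat.mul_le_mul_left B h6
      rw [mul_add] at h7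
      omega
    rw [← h5]
    exact Nat.mod_eq_of_lt d1

end Pool.Agent.Q40.KP
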