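import Pool.Agent.Q40.KP.Core

set_option autoImplicit false

/-!
# Graphs with small components and room in blocks of size `2 ^ a` (Karp conjecture)
-/

namespace Pool.Agent.Q40.KP

open Finset
open Pool.Agent.H119R2.Kp (GP PV dual pve_map_adj)
open Pool.Agent.Y46.Kc (VV GG)

/-- greedy packing -/
theorem pack {ι : Type} [DecidableEq ι] (C : Finset ι) (w : ι → ℕ) (k B s : ℕ) (hk : 0 < k)
    (hs : s ≤ B) (hw : ∀ c ∈ C, w c ≤ s) (hN : ∑ c ∈ C, w c ≤ k * (B - s)) :
    ∃ f : ι → Fin k, ∀ i, ∑ c ∈ C.filter (fun c => f c = i), w c ≤ B := by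
  induction C using Finset.induction_on with
  | empty => exact ⟨fun _ => ⟨0, hk⟩, fun i => by simp⟩
  | insert c C hc ih =>
    rw [sum_insert hc] at hN
    obtain ⟨f, hf⟩ := ih (fun d hd => hw d (mem_insert_of_mem hd)) (by omega)
    have h1 : ∑ i : Fin k, ∑ d ∈ C.filter (fun d => f d = i), w d = ∑ d ∈ C, w d :=
      Finset.sum_fiberwise C f w
    have h2 : ∃ i : Fin k, ∑ d ∈ C.filter (fun d => f d = i), w d ≤ B - s := by
      by_contra hcon
      push Not at hcon
      have h3 : ∑ _i : Fin k, (B - s + 1) ≤ ∑ i : Fin k, ∑ d ∈ C.filter (fun d => f d = i), w d :=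
        sum_le_sum fun i _ => hcon i
      rw [h1, sum_const, card_univ, Fintype.card_fin, smul_eq_mul, mul_add, mul_one] at h3
      omega
    obtain ⟨i₀, hi₀⟩ := h2
    refine ⟨fun d => if d = c then i₀ else f d, fun i => ?_⟩
    have hcongr : C.filter (fun d => (if d = c then i₀ else f d) = i) = C.filter (fun d => f d = i) := by
      refine filter_congr fun d hd => ?_
      have : d ≠ c := fun h => hc (h ▸ hd)
      rw [if_neg this]
    rw [filter_insert]
    by_cases hi : i₀ = i
    · rw [if_pos (by simpa using hi), sum_insert (by simp [hc]), hcongr]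
      have := hw c (mem_insert_self _ _)
      rw [← hi]
      omega
    · rw [if_neg (by simpa using hi), hcongr]
      exact hf i

theorem comp_core {n q a k s t : ℕ} {P : SimpleGraph (Fin n) → Prop} (hP : GP n q P)
    (hk : 0 < k) (hs : s ≤ 2 ^ a) (hkn : t + k * 2 ^ a ≤ n) (h0 : ¬ P (split n t))
    (G : SimpleGraph (Fin n)) (hG : P G) (T : Finset (Fin n)) (hT : T.card = t)
    (κ : Fin n → ℕ) (hκ : ∀ u v, u ∉ T → v ∉ T → G.Adj u v → κ u = κ v)
    (hsmall : ∀ c, {u : Fin n | u ∉ T ∧ κ u = c}.ncard ≤ s)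
    (hroom : {u : Fin n | u ∉ T ∧ ∃ v, v ∉ T ∧ G.Adj u v}.ncard ≤ k * (2 ^ a - s)) :
    k.choose 2 * (2 ^ a) ^ 2 ≤ q := by
  classical
  have : NeZero k := ⟨hk.ne'⟩
  set B := 2 ^ a with hB
  let N : Finset (Fin n) := univ.filter fun u => u ∉ T ∧ ∃ v, v ∉ T ∧ G.Adj u v
  have hN : N.card ≤ k * (B - s) := by
    rwa [Set.ncard_eq_toFinset_card', Set.toFinset_ofPred] at hroom
  have hw : ∀ c, (N.filter fun u => κ u = c).card ≤ s := by
    intro c
    refine le_trans ?_ (hsmall c)
    rw [Set.ncard_eq_toFinset_card', Set.toFinset_ofPred]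
    refine card_le_card fun u hu => ?_
    simp only [N, mem_filter, mem_univ, true_and] at hu ⊢
    exact ⟨hu.1.1, hu.2⟩
  obtain ⟨f, hf⟩ := pack (N.image κ) (fun c => (N.filter fun u => κ u = c).card) k B s hk hs
    (fun c _ => hw c) (by
      rw [← card_eq_sum_card_image]
      exact hN)
  have hload : ∀ i, (N.filter fun u => f (κ u) = i).card ≤ B := by
    intro i
    refine le_trans (le_of_eq ?_) (hf i)
    rw [card_eq_sum_card_fiberwise (f := κ) (t := (N.image κ).filter (fun c => f c = i))]
    · refine sum_congr rfl fun c hc => ?_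
      rw [mem_filter] at hc
      congr 1
      ext u
      simp only [mem_filter]
      constructor
      · rintro ⟨⟨h1, _⟩, h3⟩
        exact ⟨h1, h3⟩
      · rintro ⟨h1, h3⟩
        exact ⟨⟨h1, by rw [h3]; exact hc.2⟩, h3⟩
    · intro u hu
      have hu' : u ∈ N.filter fun u => f (κ u) = i := hu
      rw [mem_filter] at hu'
      have : κ u ∈ (N.image κ).filter (fun c => f c = i) := by
        rw [mem_filter]
        exact ⟨mem_image_of_mem _ hu'.1, hu'.2⟩
      exact this
  have hemb : ∀ i : Fin k, ∃ w : Fin n → (Fin a → ZMod 2),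
      Set.InjOn w (N.filter fun u => f (κ u) = i) := by
    intro i
    have hc : Fintype.card ↥(N.filter fun u => f (κ u) = i) ≤ Fintype.card (Fin a → ZMod 2) := by
      rw [Fintype.card_coe]
      refine (hload i).trans (le_of_eq ?_)
      simp [ZMod.card, hB]
    obtain ⟨e⟩ := Function.Embedding.nonempty_of_card_le hc
    refine ⟨fun u => if h : u ∈ N.filter (fun u => f (κ u) = i) then e ⟨u, h⟩ else 0, ?_⟩
    intro u hu v hv huv
    have hu' : u ∈ N.filter (fun u => f (κ u) = i) := hu
    have hv' : v ∈ N.filter (fun u => f (κ u) = i) := hv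
    simp only [hu', hv', dif_pos] at huv
    have := e.injective huv
    exact congrArg Subtype.val this
  choose w hwi using hemb
  have hTr : t ≤ n - k * B := by omega
  let eT : T ≃ Fin t := T.equivFinOfCardEq hT
  let F : Fin n → VV (n - k * B) k (Fin a → ZMod 2) := fun u =>
    if h : u ∈ T then Sum.inl (Fin.castLE hTr (eT ⟨u, h⟩))
    else Sum.inr (((f (κ u)).val : ZMod k), w (f (κ u)) u)
  have hFT : ∀ u (h : u ∈ T), F u = Sum.inl (Fin.castLE hTr (eT ⟨u, h⟩)) := fun u h => dif_pos h
  have hFN : ∀ u, u ∉ T → F u = Sum.inr (((f (κ u)).val : ZMod k), w (f (κ u)) u) :=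
    fun u h => dif_neg h
  have hNT : ∀ u, u ∈ N → u ∉ T := by
    intro u hu
    simp only [N, mem_filter, mem_univ, true_and] at hu
    exact hu.1
  have hcast : ∀ i j : Fin k, ((i.val : ℕ) : ZMod k) = (j.val : ℕ) → i = j := by
    intro i j h
    have := congrArg ZMod.val h
    rw [ZMod.val_natCast_of_lt i.2, ZMod.val_natCast_of_lt j.2] at this
    exact Fin.ext this
  have hinj : Set.InjOn F ((T ∪ N : Finset (Fin n)) : Set (Fin n)) := by
    intro u hu v hv huv
    have hu' : u ∈ T ∪ N := hu
    have hv' : v ∈ T ∪ N := hv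
    rw [mem_union] at hu' hv'
    by_cases h1 : u ∈ T <;> by_cases h2 : v ∈ T
    · rw [hFT u h1, hFT v h2] at huv
      have h3 := Sum.inl_injective huv
      have h4 := eT.injective (Fin.castLE_injective hTr h3)
      exact congrArg Subtype.val h4
    · rw [hFT u h1, hFN v h2] at huv
      exact absurd huv (by simp)
    · rw [hFN u h1, hFT v h2] at huv
      exact absurd huv (by simp)
    · rw [hFN u h1, hFN v h2] at huv
      have h3 := Sum.inr_injective huv
      rw [Prod.mk.injEq] at h3
      have h4 := hcast _ _ h3.1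
      have hu2 := hu'.resolve_left h1
      have hv2 := hv'.resolve_left h2
      refine hwi (f (κ u)) ?_ ?_ ?_
      · have : u ∈ N.filter fun u' => f (κ u') = f (κ u) := mem_filter.2 ⟨hu2, rfl⟩
        exact this
      · have : v ∈ N.filter fun u' => f (κ u') = f (κ u) := mem_filter.2 ⟨hv2, h4.symm⟩
        exact this
      · rw [h3.2, ← h4]
  have hcard : Fintype.card (Fin n) = Fintype.card (VV (n - k * B) k (Fin a → ZMod 2)) := by
    rw [Fintype.card_sum, Fintype.card_prod, Fintype.card_fin, Fintype.card_fin, ZMod.card]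
    have : Fintype.card (Fin a → ZMod 2) = B := by simp [ZMod.card, hB]
    rw [this]
    omega
  obtain ⟨g, hg⟩ := extend F (T ∪ N) hinj hcard
  refine core (r := n - k * B) (t := t) hP (Nat.sub_add_cancel (by omega)) h0 G hG g ?_
  intro u v huv
  have hne : g u ≠ g v := fun h => huv.ne (g.injective h)
  by_cases h1 : u ∈ T
  · have hgu : g u = Sum.inl (Fin.castLE hTr (eT ⟨u, h1⟩)) := by
      rw [hg u (mem_union_left _ h1), hFT u h1]
    have hlt : (Fin.castLE hTr (eT ⟨u, h1⟩)).val < t := (eT ⟨u, h1⟩).2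
    rw [hgu]
    rcases hgv : g v with y | y
    · refine ⟨fun h => hne (by rw [hgu, hgv, h]), Or.inl hlt⟩
    · exact hlt
  · by_cases h2 : v ∈ T
    · have hgv : g v = Sum.inl (Fin.castLE hTr (eT ⟨v, h2⟩)) := by
        rw [hg v (mem_union_left _ h2), hFT v h2]
      have hlt : (Fin.castLE hTr (eT ⟨v, h2⟩)).val < t := (eT ⟨v, h2⟩).2
      rw [hgv]
      rcases hgu : g u with x | x
      · refine ⟨fun h => hne (by rw [hgu, hgv, h]), Or.inr hlt⟩
      · exact hlt
    · have hu : u ∈ N := by
        simp only [N, mem_filter, mem_univ, true_and]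
        exact ⟨h1, v, h2, huv⟩
      have hv : v ∈ N := by
        simp only [N, mem_filter, mem_univ, true_and]
        exact ⟨h2, u, h1, huv.symm⟩
      have hgu : g u = Sum.inr (((f (κ u)).val : ZMod k), w (f (κ u)) u) := by
        rw [hg u (mem_union_right _ hu), hFN u h1]
      have hgv : g v = Sum.inr (((f (κ v)).val : ZMod k), w (f (κ v)) v) := by
        rw [hg v (mem_union_right _ hv), hFN v h2]
      have hκ' := hκ u v h1 h2 huv
      rw [hgu, hgv, hκ']
      refine Or.inl ⟨rfl, ?_, Or.inl trivial⟩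
      intro h3
      apply hne
      rw [hgu, hgv, hκ']
      exact congrArg (fun c => Sum.inr ((((f (κ v)).val : ℕ) : ZMod k), c)) h3

end Pool.Agent.Q40.KP
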