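import Pool.Agent.Y46.Kc.Two
import Pool.Agent.H119R2.Kp.D4
import Pool.Agent.H119R2.Kp.PVE

set_option autoImplicit false

/-!
# Graphs of small path-width in blocks of size `2 ^ a` (Karp conjecture)
-/

namespace Pool.Agent.Q40.KP

open Finset
open Pool.Agent.H119R2.Kp (GP PV dual pve_map_adj)
open Pool.Agent.Y46.Kc (VV GG)

/-- The complete split graph: the first `t` vertices are joined to all vertices, there are no other
edges. -/
def split (n t : ℕ) : SimpleGraph (Fin n) where
  Adj u v := u ≠ v ∧ (u.val < t ∨ v.val < t)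
  symm := ⟨fun _ _ h => ⟨h.1.symm, h.2.symm⟩⟩
  loopless := ⟨fun _ h => h.1 rfl⟩

theorem split_mono {n t t' : ℕ} (h : t ≤ t') : split n t ≤ split n t' :=
  fun _ _ huv => ⟨huv.1, huv.2.imp (fun h' => lt_of_lt_of_le h' h) (fun h' => lt_of_lt_of_le h' h)⟩

/-- an injective map on a subset extends to a bijection -/
theorem extend {α β : Type} [Fintype α] [Fintype β] [DecidableEq β] (f : α → β) (s : Finset α)
    (hfs : Set.InjOn f s) (hcard : Fintype.card α = Fintype.card β) :
    ∃ g : α ≃ β, ∀ i ∈ s, g i = f i := by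
  classical
  obtain ⟨g, hg⟩ := Finset.exists_equiv_extend_of_card_eq (t := (univ : Finset β))
    (s := s) (f := f) (by rw [hcard, Finset.card_univ]) (subset_univ _) hfs
  refine ⟨g.trans (Equiv.subtypeUnivEquiv fun x => mem_univ x), fun i hi => ?_⟩
  exact hg i hi

theorem core {n q a k r t : ℕ} {P : SimpleGraph (Fin n) → Prop} (hP : GP n q P)
    (hn : r + k * 2 ^ a = n) (h0 : ¬ P (split n t)) (G : SimpleGraph (Fin n))
    (hG : P G) (φ : Fin n ≃ VV r k (Fin a → ZMod 2))
    (hφ : ∀ u v, G.Adj u v →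
      (GG (split r t) {x | x.val < t} Set.univ ∅).Adj (φ u) (φ v)) :
    k.choose 2 * (2 ^ a) ^ 2 ≤ q := by
  classical
  by_cases hk : k = 0
  · rw [hk]
    simp
  have : NeZero k := ⟨hk⟩
  refine Pool.Agent.Y46.Kc.two hP a hn (split r t) {x | x.val < t} ?_ ?_
  · rintro ⟨e, he⟩
    apply h0
    have hc : Fintype.card (ZMod k × (Fin a → ZMod 2)) = k * 2 ^ a := by
      simp [ZMod.card]
    let e₁ : (ZMod k × (Fin a → ZMod 2)) ≃ Fin (k * 2 ^ a) := Fintype.equivFinOfCardEq hc
    let e₀ : VV r k (Fin a → ZMod 2) ≃ Fin n :=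
      (Equiv.sumCongr (Equiv.refl (Fin r)) e₁).trans (finSumFinEquiv.trans (finCongr hn))
    have h1 : ∀ x : Fin r, (e₀ (Sum.inl x)).val = x.val := by
      intro x
      simp [e₀]
    refine hP.mono _ _ ?_ (hP.iso (e.symm.trans e₀) _ he)
    intro x y hxy
    rw [pve_map_adj, pve_map_adj] at hxy
    have hx : e.symm ((e.symm.trans e₀).symm x) = e₀.symm x := by simp
    have hy : e.symm ((e.symm.trans e₀).symm y) = e₀.symm y := by simp
    rw [hx, hy] at hxy
    obtain ⟨u, rfl⟩ := e₀.surjective x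
    obtain ⟨v, rfl⟩ := e₀.surjective y
    rw [Equiv.symm_apply_apply, Equiv.symm_apply_apply] at hxy
    refine ⟨fun h => hxy.ne (e₀.injective h), ?_⟩
    rcases u with u | u <;> rcases v with v | v
    · rw [h1, h1]
      exact hxy.2
    · left
      rw [h1]
      exact hxy
    · right
      rw [h1]
      exact hxy
    · rcases hxy with ⟨_, _, h | h⟩ | ⟨_, h | h⟩ <;> exact h.elim
  · refine ⟨φ.symm, hP.mono _ _ ?_ hG⟩
    intro u v huv
    rw [pve_map_adj]
    simpa using hφ u v huv

/-- path-width -/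
theorem path_core {n q a b k t : ℕ} {P : SimpleGraph (Fin n) → Prop} (hP : GP n q P)
    (hk : 0 < k) (hkn : k * (2 ^ a + b) ≤ n) (ht : n - k * 2 ^ a ≤ t) (h0 : ¬ P (split n t))
    (G : SimpleGraph (Fin n)) (hG : P G)
    (hpw : ∀ i : ℕ, {u : Fin n | u.val < i ∧ ∃ v : Fin n, i ≤ v.val ∧ G.Adj u v}.ncard ≤ b) :
    k.choose 2 * (2 ^ a) ^ 2 ≤ q := by
  classical
  have : NeZero k := ⟨hk.ne'⟩
  have hle : k * 2 ^ a ≤ n := le_trans (Nat.mul_le_mul_left _ (Nat.le_add_right _ _)) hkn
  set B := 2 ^ a with hB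
  set L := B + b with hL
  -- the sets `D i`
  let I : ℕ → Finset (Fin n) := fun i => univ.filter fun u : Fin n => i * L ≤ u.val ∧ u.val < (i + 1) * L
  let S : ℕ → Finset (Fin n) := fun i => univ.filter fun u : Fin n => u.val < i ∧ ∃ v : Fin n, i ≤ v.val ∧ G.Adj u v
  have hS : ∀ i, (S i).card ≤ b := by
    intro i
    have := hpw i
    rwa [Set.ncard_eq_toFinset_card', Set.toFinset_ofPred] at this
  have hI : ∀ i, i < k → (I i).card = L := by
    intro i hi
    have h1 : (i + 1) * L ≤ n := le_trans (Nat.mul_le_mul_right _ hi) hkn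
    have h2 : (I i).card = (Finset.Ico (i * L) ((i + 1) * L)).card := by
      refine Finset.card_bij (fun u _ => u.val) ?_ ?_ ?_
      · intro u hu
        simp only [I, mem_filter] at hu
        rw [Finset.mem_Ico]
        exact hu.2
      · intro u _ v _ h
        exact Fin.ext h
      · intro m hm
        rw [Finset.mem_Ico] at hm
        exact ⟨⟨m, by omega⟩, by simp only [I, mem_filter, mem_univ, true_and]; exact hm, rfl⟩
    rw [h2, Nat.card_Ico, add_mul, one_mul, Nat.add_sub_cancel_left]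
  have hD : ∀ i, i < k → ∃ C : Finset (Fin n), C ⊆ I i \ S ((i + 1) * L) ∧ C.card = B := by
    intro i hi
    refine Finset.exists_subset_card_eq ?_
    have h1 := Finset.le_card_sdiff (S ((i + 1) * L)) (I i)
    rw [hI i hi] at h1
    have h2 := hS ((i + 1) * L)
    omega
  choose! C hC hCc using hD
  have hemb : ∀ i, i < k → ∃ w : Fin n → (Fin a → ZMod 2), Set.InjOn w (C i) ∧
      ∀ x, ∃ u ∈ C i, w u = x := by
    intro i hi
    have hc : Fintype.card (C i) = Fintype.card (Fin a → ZMod 2) := by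
      rw [Fintype.card_coe, hCc i hi]
      simp [ZMod.card, hB]
    let e := Fintype.equivOfCardEq hc
    refine ⟨fun u => if h : u ∈ C i then e ⟨u, h⟩ else 0, ?_, ?_⟩
    · intro u hu v hv huv
      have hu' : u ∈ C i := hu
      have hv' : v ∈ C i := hv
      simp only [hu', hv', dif_pos] at huv
      have := e.injective huv
      exact congrArg Subtype.val this
    · intro x
      refine ⟨(e.symm x).1, (e.symm x).2, ?_⟩
      simp
  choose! w hw hwx using hemb
  -- the index of the superblock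
  have hLpos : 0 < L := by
    have : 0 < B := by rw [hB]; positivity
    omega
  have hidx : ∀ i (u : Fin n), u ∈ C i → i < k → u.val / L = i := by
    intro i u hu hi
    have h1 := hC i hi hu
    simp only [I, S, mem_sdiff, mem_filter, mem_univ, true_and] at h1
    rw [Nat.div_eq_iff hLpos]
    have h3 := h1.1.2
    rw [add_mul, one_mul] at h3
    constructor
    · exact h1.1.1
    · omega
  let s : Finset (Fin n) := (range k).biUnion C
  have hs : ∀ u, u ∈ s → u.val / L < k ∧ u ∈ C (u.val / L) := by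
    intro u hu
    rw [mem_biUnion] at hu
    obtain ⟨i, hi, hu⟩ := hu
    rw [mem_range] at hi
    rw [hidx i u hu hi]
    exact ⟨hi, hu⟩
  let f : Fin n → VV (n - k * B) k (Fin a → ZMod 2) := fun u =>
    Sum.inr (((u.val / L : ℕ) : ZMod k), w (u.val / L) u)
  have hcast : ∀ i j : ℕ, i < k → j < k → ((i : ℕ) : ZMod k) = (j : ℕ) → i = j := by
    intro i j hi hj h
    have := congrArg ZMod.val h
    rwa [ZMod.val_natCast_of_lt hi, ZMod.val_natCast_of_lt hj] at this
  have hinj : Set.InjOn f s := by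
    intro u hu v hv huv
    obtain ⟨hu1, hu2⟩ := hs u hu
    obtain ⟨hv1, hv2⟩ := hs v hv
    have h1 := Sum.inr_injective huv
    rw [Prod.mk.injEq] at h1
    have h2 := hcast _ _ hu1 hv1 h1.1
    rw [← h2] at hv2 h1
    exact hw _ hu1 hu2 hv2 h1.2
  have hcard : Fintype.card (Fin n) = Fintype.card (VV (n - k * B) k (Fin a → ZMod 2)) := by
    rw [Fintype.card_sum, Fintype.card_prod, Fintype.card_fin, Fintype.card_fin, ZMod.card]
    have : Fintype.card (Fin a → ZMod 2) = B := by simp [ZMod.card, hB]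
    rw [this]
    omega
  obtain ⟨g, hg⟩ := extend f s hinj hcard
  have hout : ∀ u z x, g u = Sum.inr (z, x) → u ∈ s ∧ z = ((u.val / L : ℕ) : ZMod k) ∧
      x = w (u.val / L) u := by
    intro u z x hu
    have hz : z.val < k := ZMod.val_lt z
    obtain ⟨v, hv, hvx⟩ := hwx z.val hz x
    have hvs : v ∈ s := by
      rw [mem_biUnion]
      exact ⟨z.val, mem_range.2 hz, hv⟩
    have h1 : g v = Sum.inr (z, x) := by
      rw [hg v hvs]
      simp only [f]
      rw [hidx z.val v hv hz, hvx, ZMod.natCast_zmod_val]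
    have h2 : u = v := g.injective (hu.trans h1.symm)
    subst h2
    refine ⟨hvs, ?_⟩
    rw [hg u hvs] at hu
    have h3 := Sum.inr_injective hu
    rw [Prod.mk.injEq] at h3
    exact ⟨h3.1.symm, h3.2.symm⟩
  have key : ∀ u v, u ∈ s → v ∈ s → G.Adj u v → ¬ u.val / L < v.val / L := by
    intro u v hu hv huv hlt
    obtain ⟨hu1, hu2⟩ := hs u hu
    have h1 := hC _ hu1 hu2
    simp only [I, S, mem_sdiff, mem_filter, mem_univ, true_and] at h1
    apply h1.2
    refine ⟨h1.1.2, v, ?_, huv⟩
    calc (u.val / L + 1) * L ≤ v.val / L * L := Nat.mul_le_mul_right _ hlt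
      _ ≤ v.val := Nat.div_mul_le_self _ _
  refine core (r := n - k * B) (t := n - k * B) hP (Nat.sub_add_cancel hle) (fun h => h0 (hP.mono _ _ (split_mono ht) h)) G hG g ?_
  intro u v huv
  have hne : g u ≠ g v := fun h => huv.ne (g.injective h)
  rcases hgu : g u with x | ⟨z, x⟩ <;> rcases hgv : g v with y | ⟨z', y⟩
  · exact ⟨fun h => hne (by rw [hgu, hgv, h]), Or.inl x.2⟩
  · exact x.2
  · exact y.2
  · obtain ⟨hu1, hu2, hu3⟩ := hout u z x hgu
    obtain ⟨hv1, hv2, hv3⟩ := hout v z' y hgv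
    have h1 : u.val / L = v.val / L := by
      have h2 := key u v hu1 hv1 huv
      have h3 := key v u hv1 hu1 huv.symm
      omega
    have h2 : z = z' := by rw [hu2, hv2, h1]
    refine Or.inl ⟨h2, ?_, Or.inl trivial⟩
    intro h3
    apply hne
    rw [hgu, hgv, h2]
    exact congrArg (fun c => Sum.inr (z', c)) h3

end Pool.Agent.Q40.KP
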