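import Mathlib

set_option autoImplicit false

/-!
# Choice of the block size
-/

namespace Pool.Agent.Q40.KP

theorem exists_block (x : ℝ) (hx : 1 ≤ x) : ∃ a : ℕ, x < (2 : ℝ) ^ a ∧ (2 : ℝ) ^ a ≤ 2 * x := by
  obtain ⟨m, h1, h2⟩ := exists_nat_pow_near hx (by norm_num : (1 : ℝ) < 2)
  refine ⟨m + 1, h2, ?_⟩
  rw [pow_succ]
  linarith

theorem choose_mul (k : ℕ) (B : ℝ) : ((k.choose 2 : ℕ) : ℝ) * B ^ 2 = (k * B) * (k * B - B) / 2 := by
  rw [Nat.cast_choose_two]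
  ring

theorem num1 (n b q : ℕ) (hb : 1 ≤ b) (hq : (q : ℝ) < (n : ℝ) ^ 2 / 2 - 5 * n * Real.sqrt (b * n)) :
    ∃ a k : ℕ, 0 < k ∧ k * (2 ^ a + b) ≤ n ∧ ((n - k * 2 ^ a : ℕ) : ℝ) ≤ 4 * Real.sqrt (b * n) ∧
      q < k.choose 2 * (2 ^ a) ^ 2 := by
  have hq0 : (0 : ℝ) ≤ q := Nat.cast_nonneg _
  have hbR : (1 : ℝ) ≤ b := by exact_mod_cast hb
  obtain ⟨x, hx⟩ : ∃ x, x = Real.sqrt (b * n) := ⟨_, rfl⟩
  rw [← hx] at hq ⊢
  have hx0 : 0 ≤ x := by rw [hx]; exact Real.sqrt_nonneg _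
  have hn0 : (0 : ℝ) ≤ n := Nat.cast_nonneg _
  have hxx : x ^ 2 = b * n := by rw [hx]; exact Real.sq_sqrt (by positivity)
  have hnpos : (0 : ℝ) < n := by
    rcases hn0.lt_or_eq with h | h
    · exact h
    · exfalso
      rw [← h] at hq
      norm_num at hq
      linarith
  have hn1 : (1 : ℝ) ≤ n := by
    have : 0 < n := by exact_mod_cast hnpos
    exact_mod_cast this
  have hx1 : 1 ≤ x := by
    rw [hx]
    apply Real.one_le_sqrt.2
    nlinarith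
  have hxn : 10 * x < n := by
    by_contra h
    push Not at h
    nlinarith
  have hbx : (b : ℝ) ≤ x := by
    by_contra h
    push Not at h
    nlinarith
  obtain ⟨a, ha1, ha2⟩ := exists_block x hx1
  have hBpos : (0 : ℝ) < (2 : ℝ) ^ a := by positivity
  obtain ⟨k, hk⟩ : ∃ k, k = n / (2 ^ a + b) := ⟨_, rfl⟩
  have hL : 0 < 2 ^ a + b := Nat.lt_of_lt_of_le hb (Nat.le_add_left _ _)
  have h1 : k * (2 ^ a + b) ≤ n := by rw [hk]; exact Nat.div_mul_le_self _ _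
  have h2 : n < (k + 1) * (2 ^ a + b) := by
    rw [hk, mul_comm]
    exact Nat.lt_mul_div_succ n hL
  have h1R : (k : ℝ) * ((2 : ℝ) ^ a + b) ≤ n := by exact_mod_cast h1
  have h2R : (n : ℝ) < (k + 1) * ((2 : ℝ) ^ a + b) := by exact_mod_cast h2
  have hkpos : 0 < k := by
    rcases Nat.eq_zero_or_pos k with h | h
    · exfalso
      rw [h] at h2R
      norm_num at h2R
      linarith
    · exact h
  have hk0 : (0 : ℝ) ≤ k := Nat.cast_nonneg _
  have hkb : (k : ℝ) * b ≤ x := by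
    have h3 : (k : ℝ) * x ≤ n := by nlinarith
    have h4 : (k : ℝ) * b * x ≤ x * x := by nlinarith
    exact le_of_mul_le_mul_right h4 (by linarith)
  have hle : k * 2 ^ a ≤ n := le_trans (Nat.mul_le_mul_left _ (Nat.le_add_right _ _)) h1
  have hcast : ((n - k * 2 ^ a : ℕ) : ℝ) = n - k * (2 : ℝ) ^ a := by
    rw [Nat.cast_sub hle]
    push_cast
    ring
  have hr : (n : ℝ) - k * (2 : ℝ) ^ a ≤ 4 * x := by nlinarith
  refine ⟨a, k, hkpos, h1, by rw [hcast]; exact hr, ?_⟩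
  have h5 : (q : ℝ) < ((k.choose 2 * (2 ^ a) ^ 2 : ℕ) : ℝ) := by
    push_cast
    rw [choose_mul]
    have h6 : (n : ℝ) - 4 * x ≤ k * (2 : ℝ) ^ a := by linarith
    have h7 : (n : ℝ) - 6 * x ≤ k * (2 : ℝ) ^ a - (2 : ℝ) ^ a := by linarith
    have h8 : ((n : ℝ) - 4 * x) * ((n : ℝ) - 6 * x) ≤
        (k * (2 : ℝ) ^ a) * (k * (2 : ℝ) ^ a - (2 : ℝ) ^ a) :=
      mul_le_mul h6 h7 (by linarith) (by linarith)
    nlinarith
  exact_mod_cast h5

theorem num2 (n t s m q : ℕ) (hs : 1 ≤ s) (ht : t ≤ n)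
    (hm : 3 * Real.sqrt (s * n) ≤ m)
    (hq : (q : ℝ) < ((n : ℝ) - t) ^ 2 / 2 - 3 * n * Real.sqrt (s * n)) :
    ∃ a k : ℕ, 0 < k ∧ s ≤ 2 ^ a ∧ t + k * 2 ^ a ≤ n ∧ n - t - m ≤ k * (2 ^ a - s) ∧
      q < k.choose 2 * (2 ^ a) ^ 2 := by
  have hq0 : (0 : ℝ) ≤ q := Nat.cast_nonneg _
  have hsR : (1 : ℝ) ≤ s := by exact_mod_cast hs
  obtain ⟨x, hx⟩ : ∃ x, x = Real.sqrt (s * n) := ⟨_, rfl⟩
  rw [← hx] at hq hm
  have hx0 : 0 ≤ x := by rw [hx]; exact Real.sqrt_nonneg _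
  have hn0 : (0 : ℝ) ≤ n := Nat.cast_nonneg _
  have hxx : x ^ 2 = s * n := by rw [hx]; exact Real.sq_sqrt (by positivity)
  obtain ⟨N, hN⟩ : ∃ N : ℕ, N = n - t := ⟨_, rfl⟩
  have hNR : (N : ℝ) = n - t := by rw [hN, Nat.cast_sub ht]
  rw [← hNR] at hq
  have hN0 : (0 : ℝ) ≤ N := Nat.cast_nonneg _
  have ht0 : (0 : ℝ) ≤ t := Nat.cast_nonneg _
  have hNn : (N : ℝ) ≤ n := by linarith
  have hNpos : (0 : ℝ) < N := by
    rcases hN0.lt_or_eq with h | h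
    · exact h
    · exfalso
      rw [← h] at hq
      nlinarith
  have hn1 : (1 : ℝ) ≤ n := by
    have : 0 < N := by exact_mod_cast hNpos
    have : (1 : ℝ) ≤ N := by exact_mod_cast this
    linarith
  have hx1 : 1 ≤ x := by
    rw [hx]
    apply Real.one_le_sqrt.2
    nlinarith
  have hxn : 6 * x < N := by
    by_contra h
    push Not at h
    nlinarith
  have hsx : (s : ℝ) ≤ x := by
    by_contra h
    push Not at h
    nlinarith
  obtain ⟨a, ha1, ha2⟩ := exists_block x hx1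
  have hBpos : (0 : ℝ) < (2 : ℝ) ^ a := by positivity
  have hsB : s ≤ 2 ^ a := by
    have : (s : ℝ) ≤ ((2 ^ a : ℕ) : ℝ) := by
      push_cast
      linarith
    exact_mod_cast this
  obtain ⟨k, hk⟩ : ∃ k, k = N / 2 ^ a := ⟨_, rfl⟩
  have hL : 0 < 2 ^ a := by positivity
  have h1 : k * 2 ^ a ≤ N := by rw [hk]; exact Nat.div_mul_le_self _ _
  have h2 : N < (k + 1) * 2 ^ a := by
    rw [hk, mul_comm]
    exact Nat.lt_mul_div_succ N hL
  have h1R : (k : ℝ) * (2 : ℝ) ^ a ≤ N := by exact_mod_cast h1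
  have h2R : (N : ℝ) < (k + 1) * (2 : ℝ) ^ a := by exact_mod_cast h2
  have hkpos : 0 < k := by
    rcases Nat.eq_zero_or_pos k with h | h
    · exfalso
      rw [h] at h2R
      norm_num at h2R
      linarith
    · exact h
  have hk0 : (0 : ℝ) ≤ k := Nat.cast_nonneg _
  have hks : (k : ℝ) * s ≤ x := by
    have h3 : (k : ℝ) * x ≤ n := by nlinarith
    have h4 : (k : ℝ) * s * x ≤ x * x := by nlinarith
    exact le_of_mul_le_mul_right h4 (by linarith)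
  refine ⟨a, k, hkpos, hsB, by omega, ?_, ?_⟩
  · have h3 : (N : ℝ) ≤ ((k * (2 ^ a - s) + m : ℕ) : ℝ) := by
      push_cast [Nat.cast_sub hsB]
      nlinarith
    have h4 : N ≤ k * (2 ^ a - s) + m := by exact_mod_cast h3
    omega
  · have h5 : (q : ℝ) < ((k.choose 2 * (2 ^ a) ^ 2 : ℕ) : ℝ) := by
      push_cast
      rw [choose_mul]
      have h6 : (N : ℝ) - 2 * x ≤ k * (2 : ℝ) ^ a := by linarith
      have h7 : (N : ℝ) - 4 * x ≤ k * (2 : ℝ) ^ a - (2 : ℝ) ^ a := by linarith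
      have h8 : ((N : ℝ) - 2 * x) * ((N : ℝ) - 4 * x) ≤
          (k * (2 : ℝ) ^ a) * (k * (2 : ℝ) ^ a - (2 : ℝ) ^ a) :=
        mul_le_mul h6 h7 (by linarith) (by linarith)
      nlinarith
    exact_mod_cast h5

end Pool.Agent.Q40.KP
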