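import Pool.Agent.H119R2.Kp.NT
import Pool.Agent.Q40.KP.Num

set_option autoImplicit false

/-!
# Choice of a prime number of blocks
-/

namespace Pool.Agent.Q40.KP

theorem num3 (ε : ℝ) (hε : 0 < ε) (hε4 : ε < 1 / 4) : ∃ δ : ℝ, 0 < δ ∧ ∃ n₀ : ℕ, ∀ n t q : ℕ, n₀ ≤ n →
    t ≤ n → (q : ℝ) < ((n : ℝ) - t) ^ 2 / 2 - 2 * ε * (n : ℝ) ^ 2 →
    ∃ a k : ℕ, k.Prime ∧ t + k * 2 ^ a ≤ n ∧ (1 - ε) * n ≤ ((t + k * 2 ^ a : ℕ) : ℝ) ∧
      δ * n ≤ (2 : ℝ) ^ a ∧ q < k.choose 2 * (2 ^ a) ^ 2 := by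
  obtain ⟨N₀, hN₀⟩ := Pool.Agent.H119R2.Kp.prime_between ε hε
  obtain ⟨K, hK⟩ : ∃ K : ℝ, K = max (2 * (N₀ : ℝ)) (1 / ε) := ⟨_, rfl⟩
  have hK1 : 2 * (N₀ : ℝ) ≤ K := by rw [hK]; exact le_max_left _ _
  have hK2 : 1 / ε ≤ K := by rw [hK]; exact le_max_right _ _
  have hK4 : 4 < K := by
    refine lt_of_lt_of_le ?_ hK2
    rw [lt_div_iff₀ hε]
    linarith
  have hK0 : 0 < K := by linarith
  have hKε : 1 ≤ ε * K := by
    rw [div_le_iff₀ hε] at hK2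
    linarith
  refine ⟨ε / K, by positivity, ⌈K / ε⌉₊, fun n t q hn ht hq => ?_⟩
  have hq0 : (0 : ℝ) ≤ q := Nat.cast_nonneg _
  have hnK : K / ε ≤ n := (Nat.le_ceil _).trans (by exact_mod_cast hn)
  have hnK' : K ≤ ε * n := by
    rw [div_le_iff₀ hε] at hnK
    linarith
  have hn0 : (0 : ℝ) < n := by
    by_contra h
    push Not at h
    nlinarith
  obtain ⟨N, hN⟩ : ∃ N : ℝ, N = (n : ℝ) - t := ⟨_, rfl⟩
  rw [← hN] at hq
  have ht0 : (0 : ℝ) ≤ t := Nat.cast_nonneg _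
  have htn : (t : ℝ) ≤ n := by exact_mod_cast ht
  have hN0 : 0 ≤ N := by linarith
  have hNn : N ≤ n := by linarith
  have hNε : 2 * ε * n < N := by
    by_contra h
    push Not at h
    have h1 : N ^ 2 ≤ (2 * ε * n) ^ 2 := pow_le_pow_left₀ hN0 h 2
    have h2 : (2 * ε * n) ^ 2 ≤ ε * n ^ 2 := by nlinarith [sq_nonneg (n : ℝ), mul_pos hε (pow_pos hn0 2)]
    nlinarith [mul_pos hε (pow_pos hn0 2)]
  have hNK : K ≤ N := by nlinarith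
  have hx1 : 1 ≤ N / K := by
    rw [le_div_iff₀ hK0]
    linarith
  obtain ⟨a, ha1, ha2⟩ := exists_nat_pow_near hx1 (by norm_num : (1 : ℝ) < 2)
  have hBpos : (0 : ℝ) < (2 : ℝ) ^ a := by positivity
  have hBK : (2 : ℝ) ^ a * K ≤ N := by rwa [le_div_iff₀ hK0] at ha1
  have hBK2 : N < 2 * (2 : ℝ) ^ a * K := by
    rw [div_lt_iff₀ hK0, pow_succ] at ha2
    linarith
  have hδ : ε / K * n ≤ (2 : ℝ) ^ a := by
    rw [div_mul_eq_mul_div, div_le_iff₀ hK0]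
    linarith
  have hε1 : 0 < 1 + ε := by linarith
  obtain ⟨p, hp, hp1, hp2⟩ := hN₀ (N / ((2 : ℝ) ^ a * (1 + ε))) (by
    rw [le_div_iff₀ (by positivity)]
    have hNN : (N₀ : ℝ) * (1 + ε) ≤ K := by
      have : (0 : ℝ) ≤ N₀ := Nat.cast_nonneg _
      nlinarith
    calc (N₀ : ℝ) * ((2 : ℝ) ^ a * (1 + ε)) = (2 : ℝ) ^ a * (N₀ * (1 + ε)) := by ring
      _ ≤ (2 : ℝ) ^ a * K := mul_le_mul_of_nonneg_left hNN hBpos.le
      _ ≤ N := hBK)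
  rw [div_lt_iff₀ (by positivity)] at hp1
  have hp3 : (p : ℝ) * (2 : ℝ) ^ a < N := by
    have h1 : (1 + ε) * (N / ((2 : ℝ) ^ a * (1 + ε))) = N / (2 : ℝ) ^ a := by
      field_simp
    rw [h1, lt_div_iff₀ hBpos] at hp2
    exact hp2
  have hp4 : (1 - ε) * N ≤ p * (2 : ℝ) ^ a := by
    have h1 : 0 ≤ (p : ℝ) * (2 : ℝ) ^ a := by positivity
    nlinarith
  have hnat : t + p * 2 ^ a ≤ n := by
    have : ((t + p * 2 ^ a : ℕ) : ℝ) ≤ n := by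
      push_cast
      linarith
    exact_mod_cast this
  refine ⟨a, p, hp, hnat, ?_, hδ, ?_⟩
  · push_cast
    nlinarith
  · have h5 : (q : ℝ) < ((p.choose 2 * (2 ^ a) ^ 2 : ℕ) : ℝ) := by
      push_cast
      rw [choose_mul]
      have h6 : (2 : ℝ) ^ a ≤ ε * N := by
        calc (2 : ℝ) ^ a = 1 * (2 : ℝ) ^ a := (one_mul _).symm
          _ ≤ ε * K * (2 : ℝ) ^ a := mul_le_mul_of_nonneg_right hKε hBpos.le
          _ = ε * ((2 : ℝ) ^ a * K) := by ring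
          _ ≤ ε * N := mul_le_mul_of_nonneg_left hBK hε.le
      have h8 : (1 - 2 * ε) * N ≤ p * (2 : ℝ) ^ a - (2 : ℝ) ^ a := by linarith
      have h9 : ((1 - ε) * N) * ((1 - 2 * ε) * N) ≤
          (p * (2 : ℝ) ^ a) * (p * (2 : ℝ) ^ a - (2 : ℝ) ^ a) :=
        mul_le_mul hp4 h8 (mul_nonneg (by linarith) hN0) (by positivity)
      have h10 : N ^ 2 ≤ (n : ℝ) ^ 2 := pow_le_pow_left₀ hN0 hNn 2
      have h11 : ((1 - ε) * N) * ((1 - 2 * ε) * N) = N ^ 2 - 3 * (ε * N ^ 2) + 2 * (ε * N) ^ 2 := by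
        ring
      have h12 : ε * N ^ 2 ≤ ε * (n : ℝ) ^ 2 := mul_le_mul_of_nonneg_left h10 hε.le
      have h13 : 0 ≤ ε * (n : ℝ) ^ 2 := by positivity
      have h14 : 0 ≤ (ε * N) ^ 2 := sq_nonneg _
      have h15 : 2 * ε * (n : ℝ) ^ 2 = 2 * (ε * (n : ℝ) ^ 2) := by ring
      rw [h15] at hq
      rw [h11] at h9
      linarith
    exact_mod_cast h5

end Pool.Agent.Q40.KP
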