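import Pool.Agent.Q40.KP.Comp
import Pool.Agent.Q40.KP.Num

set_option autoImplicit false

/-!
# Properties of graphs of small path-width are nearly evasive, for every number of vertices

Let `P` be a monotone isomorphism-invariant property of graphs on `n` vertices, `n` arbitrary.

1. If `P` holds for some graph of path-width at most `b` and fails for the complete split graph with
   `t ≥ 4 √(b n)` universal vertices, then its complexity is at least `n ^ 2 / 2 - 5 √b n ^ (3 / 2)`.
2. If `P` fails for the complete split graph with `t` universal vertices (`t = 0`: the graph without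
   edges) and holds for some graph from which `t` vertices can be deleted so that all components of
   the rest have at most `s` vertices and at least `3 √(s n)` of them are isolated vertices, then its
   complexity is at least `(n - t) ^ 2 / 2 - 3 √s n ^ (3 / 2)`.
3. Containing a given graph `F` (on at most `n` vertices) of path-width at most `b` every vertex cover
   of which has at least `4 √(b n) + 1` vertices has complexity at least
   `n ^ 2 / 2 - 5 √b n ^ (3 / 2)`.

(1) and (2) hold for the dual property (fails for the complements of the members) as well.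

The vertex set is cut into blocks of `2 ^ a ≈ √(b n)` vertices; after every block `b` vertices which
separate the blocks are put into the set of universal vertices. The bound for such a block structure
is the library theorem `Pool.Agent.Y46.Kc.two` of the starting files (not handed in there).
-/

namespace Pool.Agent.Q40.KP.PathWidth

/-- Every decision strategy `σ` (the next pair to be queried depends only on the answers to the
queries made so far) needs at least `x` queries: for every `q < x` there are two graphs that agree on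
the first `q` queried pairs, one with and one without `P`. -/
def ComplexityAtLeast {n : ℕ} (P : SimpleGraph (Fin n) → Prop) (x : ℝ) : Prop :=
  ∀ σ : Finset (Sym2 (Fin n)) → SimpleGraph (Fin n) → Sym2 (Fin n),
    (∀ (Q : Finset (Sym2 (Fin n))) (G H : SimpleGraph (Fin n)),
        (∀ e ∈ Q, (e ∈ G.edgeSet ↔ e ∈ H.edgeSet)) → σ Q G = σ Q H) →
    ∀ q : ℕ, (q : ℝ) < x →
      ∃ G H : SimpleGraph (Fin n),
        (∀ e ∈ (fun Q : Finset (Sym2 (Fin n)) => insert (σ Q G) Q)^[q]
              (∅ : Finset (Sym2 (Fin n))),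
            (e ∈ G.edgeSet ↔ e ∈ H.edgeSet)) ∧ P G ∧ ¬ P H

/-- The complete split graph: the first `t` vertices are joined to all other vertices, and there are
no other edges. -/
def CompleteSplit (n t : ℕ) : SimpleGraph (Fin n) where
  Adj u v := u ≠ v ∧ (u.val < t ∨ v.val < t)
  symm := ⟨fun _ _ h => ⟨h.1.symm, h.2.symm⟩⟩
  loopless := ⟨fun _ h => h.1 rfl⟩

/-- Path-width at most `b`, in the form of the vertex separation number: the vertices can be
arranged (vertex `u` at place `σ u`) such that for every `i` at most `b` of the vertices at the places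
before `i` have a neighbour at one of the places from `i` on. -/
def PathWidthAtMost {n : ℕ} (b : ℕ) (G : SimpleGraph (Fin n)) : Prop :=
  ∃ σ : Fin n ≃ Fin n, ∀ i : ℕ,
    {u : Fin n | (σ u).val < i ∧ ∃ v : Fin n, i ≤ (σ v).val ∧ G.Adj u v}.ncard ≤ b

/-- After the deletion of the vertices in `T` every connected component of `G` has at most `s`
vertices. -/
def SmallComponents {n : ℕ} (s : ℕ) (T : Finset (Fin n)) (G : SimpleGraph (Fin n)) : Prop :=
  ∀ u : {w : Fin n | w ∉ T}, {v | (G.induce {w : Fin n | w ∉ T}).Reachable u v}.ncard ≤ s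

/-- The vertices which are isolated after the deletion of `T`. -/
def isolated {n : ℕ} (T : Finset (Fin n)) (G : SimpleGraph (Fin n)) : Set (Fin n) :=
  {u | u ∉ T ∧ ∀ v, v ∉ T → ¬ G.Adj u v}

/-- `G` contains a copy of `F`. (As both have `n` vertices: `F` may have isolated vertices.) -/
def Contains {n : ℕ} (F G : SimpleGraph (Fin n)) : Prop :=
  ∃ σ : Fin n ≃ Fin n, F.map σ.toEmbedding ≤ G

open Finset
open Pool.Agent.H119R2.Kp (GP dual pve_map_adj)
open Pool.Agent.Q40.KP

theorem gp_of_not {n : ℕ} {P : SimpleGraph (Fin n) → Prop}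
    (hmono : ∀ G H : SimpleGraph (Fin n), G ≤ H → P G → P H)
    (hiso : ∀ (σ : Fin n ≃ Fin n) (G : SimpleGraph (Fin n)), P G → P (G.map σ.toEmbedding))
    (x : ℝ) (h : ∀ q : ℕ, (q : ℝ) < x → ¬ GP n q P) : ComplexityAtLeast P x := by
  intro σ hσ q hq
  by_contra hcon
  refine h q hq ⟨hmono, hiso, Pool.Agent.H119R2.Kp.dec_of_strategy _ P σ hσ fun G H hGH hPG => ?_⟩
  by_contra hPH
  exact hcon ⟨G, H, hGH, hPG, hPH⟩

theorem gp_dual {n q : ℕ} {P P' : SimpleGraph (Fin n) → Prop}
    (hP' : P' = P ∨ P' = fun G => ¬ P Gᶜ) (h : GP n q P) : GP n q P' := by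
  rcases hP' with rfl | rfl
  · exact h
  · exact h.dual'

theorem part_path {n q : ℕ} {P : SimpleGraph (Fin n) → Prop} (hP : GP n q P) (b t : ℕ) (hb : 1 ≤ b)
    (ht : 4 * Real.sqrt (b * n) ≤ t) (h0 : ¬ P (CompleteSplit n t)) (G : SimpleGraph (Fin n))
    (hG : PathWidthAtMost b G) (hPG : P G)
    (hq : (q : ℝ) < (n : ℝ) ^ 2 / 2 - 5 * n * Real.sqrt (b * n)) : False := by
  obtain ⟨a, k, hk, hkn, hr, hlt⟩ := num1 n b q hb hq
  obtain ⟨σ, hσ⟩ := hG
  have hr' : n - k * 2 ^ a ≤ t := by
    have := hr.trans ht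
    exact_mod_cast this
  have h := path_core hP hk hkn hr' h0 (G.map σ.toEmbedding) (hP.iso σ G hPG) ?_
  · omega
  · intro i
    refine le_trans (le_of_eq ?_) (hσ i)
    have : {u : Fin n | u.val < i ∧ ∃ v : Fin n, i ≤ v.val ∧ (G.map σ.toEmbedding).Adj u v} =
        σ '' {u : Fin n | (σ u).val < i ∧ ∃ v : Fin n, i ≤ (σ v).val ∧ G.Adj u v} := by
      ext u
      constructor
      · rintro ⟨h1, v, h2, h3⟩
        rw [pve_map_adj] at h3
        exact ⟨σ.symm u, ⟨by simpa using h1, σ.symm v, by simpa using h2, h3⟩, by simp⟩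
      · rintro ⟨u, ⟨h1, v, h2, h3⟩, rfl⟩
        refine ⟨h1, σ v, h2, ?_⟩
        rw [pve_map_adj]
        simpa using h3
    rw [this, Set.ncard_image_of_injective _ σ.injective]

theorem part_comp {n q : ℕ} {P : SimpleGraph (Fin n) → Prop} (hP : GP n q P) (s t : ℕ) (hs : 1 ≤ s)
    (h0 : ¬ P (CompleteSplit n t)) (G : SimpleGraph (Fin n)) (hPG : P G) (T : Finset (Fin n))
    (hT : T.card = t) (hG : SmallComponents s T G)
    (hroom : 3 * Real.sqrt (s * n) ≤ ((isolated T G).ncard : ℝ))
    (hq : (q : ℝ) < ((n : ℝ) - t) ^ 2 / 2 - 3 * n * Real.sqrt (s * n)) : False := by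
  classical
  have htn : t ≤ n := by
    rw [← hT]
    exact (card_le_univ T).trans (by simp)
  obtain ⟨a, k, hk, hsB, hkn, hr, hlt⟩ := num2 n t s _ q hs htn hroom hq
  -- labels
  let Γ := G.induce {w : Fin n | w ∉ T}
  let e := Fintype.equivFin Γ.ConnectedComponent
  let κ : Fin n → ℕ := fun u => if h : u ∉ T then (e (Γ.connectedComponentMk ⟨u, h⟩)).val else 0
  have hκ1 : ∀ u (h : u ∉ T), κ u = (e (Γ.connectedComponentMk ⟨u, h⟩)).val := fun u h => dif_pos h
  have hκ2 : ∀ u v (hu : u ∉ T) (hv : v ∉ T), κ u = κ v ↔ Γ.Reachable ⟨u, hu⟩ ⟨v, hv⟩ := by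
    intro u v hu hv
    rw [hκ1 u hu, hκ1 v hv, ← SimpleGraph.ConnectedComponent.eq]
    constructor
    · intro h
      exact e.injective (Fin.ext h)
    · intro h
      rw [h]
  have h := comp_core hP hk hsB hkn h0 G hPG T hT κ ?_ ?_ ?_
  · omega
  · intro u v hu hv huv
    rw [hκ2 u v hu hv]
    exact SimpleGraph.Adj.reachable (by exact huv)
  · intro c
    rcases Set.eq_empty_or_nonempty {u : Fin n | u ∉ T ∧ κ u = c} with h | ⟨u, hu, huc⟩
    · rw [h]
      simp
    · refine le_trans ?_ (hG ⟨u, hu⟩)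
      rw [← Set.ncard_image_of_injective _ (Subtype.val_injective (p := fun w : Fin n => w ∉ T))]
      refine Set.ncard_le_ncard ?_ (Set.toFinite _)
      rintro v ⟨hv, hvc⟩
      refine ⟨⟨v, hv⟩, ?_, rfl⟩
      exact (hκ2 u v hu hv).1 (huc.trans hvc.symm)
  · refine le_trans ?_ hr
    have h1 : (isolated T G).ncard + {u : Fin n | u ∉ T ∧ ∃ v, v ∉ T ∧ G.Adj u v}.ncard + T.card ≤ n := by
      have h2 : Disjoint (isolated T G) {u : Fin n | u ∉ T ∧ ∃ v, v ∉ T ∧ G.Adj u v} := by
        rw [Set.disjoint_left]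
        rintro u ⟨_, h3⟩ ⟨_, v, hv, h4⟩
        exact h3 v hv h4
      rw [← Set.ncard_union_eq h2 (Set.toFinite _) (Set.toFinite _), ← Set.ncard_coe_finset T,
        ← Set.ncard_union_eq _ (Set.toFinite _) (Set.toFinite _)]
      · refine le_trans (Set.ncard_le_ncard (Set.subset_univ _) (Set.toFinite _)) ?_
        rw [Set.ncard_univ, Nat.card_eq_fintype_card, Fintype.card_fin]
      · rw [Set.disjoint_left]
        rintro u (hu | hu) hu'
        · exact hu.1 hu'
        · exact hu.1 hu'
    omega

/-- **Near-evasiveness from small path-width.** -/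
theorem path_width :
    (∀ (n : ℕ) (P P' : SimpleGraph (Fin n) → Prop),
      (∀ G H : SimpleGraph (Fin n), G ≤ H → P G → P H) →
      (∀ (σ : Fin n ≃ Fin n) (G : SimpleGraph (Fin n)), P G → P (G.map σ.toEmbedding)) →
      (P' = P ∨ P' = fun G => ¬ P Gᶜ) →
      (∀ b t : ℕ, 1 ≤ b → 4 * Real.sqrt (b * n) ≤ t → ¬ P' (CompleteSplit n t) →
        (∃ G : SimpleGraph (Fin n), PathWidthAtMost b G ∧ P' G) →
        ComplexityAtLeast P ((n : ℝ) ^ 2 / 2 - 5 * n * Real.sqrt (b * n))) ∧
      (∀ s t : ℕ, 1 ≤ s → ¬ P' (CompleteSplit n t) →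
        (∃ (G : SimpleGraph (Fin n)) (T : Finset (Fin n)), P' G ∧ T.card = t ∧
          SmallComponents s T G ∧ 3 * Real.sqrt (s * n) ≤ ((isolated T G).ncard : ℝ)) →
        ComplexityAtLeast P (((n : ℝ) - t) ^ 2 / 2 - 3 * n * Real.sqrt (s * n)))) ∧
    (∀ (n b : ℕ) (F : SimpleGraph (Fin n)), 1 ≤ b → PathWidthAtMost b F →
      (∀ C : Finset (Fin n), (∀ u v, F.Adj u v → u ∈ C ∨ v ∈ C) →
        4 * Real.sqrt (b * n) + 1 ≤ C.card) →
      ComplexityAtLeast (fun G : SimpleGraph (Fin n) => Contains F G)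
        ((n : ℝ) ^ 2 / 2 - 5 * n * Real.sqrt (b * n))) := by
  classical
  refine ⟨fun n P P' hmono hiso hP' => ⟨?_, ?_⟩, ?_⟩
  · rintro b t hb ht h0 ⟨G, hG, hPG⟩
    exact gp_of_not hmono hiso _ fun q hq hGP =>
      part_path (gp_dual hP' hGP) b t hb ht h0 G hG hPG hq
  · rintro s t hs h0 ⟨G, T, hPG, hT, hG, hroom⟩
    exact gp_of_not hmono hiso _ fun q hq hGP =>
      part_comp (gp_dual hP' hGP) s t hs h0 G hPG T hT hG hroom hq
  · intro n b F hb hF hcov
    refine gp_of_not ?_ ?_ _ fun q hq hGP =>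
      part_path hGP b ⌈4 * Real.sqrt (b * n)⌉₊ hb (Nat.le_ceil _) ?_ F hF ⟨Equiv.refl _, ?_⟩ hq
    · rintro G H hGH ⟨σ, hσ⟩
      exact ⟨σ, hσ.trans hGH⟩
    · rintro τ G ⟨σ, hσ⟩
      refine ⟨σ.trans τ, ?_⟩
      intro u v huv
      rw [pve_map_adj] at huv ⊢
      apply hσ
      rw [pve_map_adj]
      simpa using huv
    · rintro ⟨σ, hσ⟩
      have h1 := hcov (univ.filter fun u => (σ u).val < ⌈4 * Real.sqrt (b * n)⌉₊) ?_
      · have h2 : (univ.filter fun u => (σ u).val < ⌈4 * Real.sqrt (b * n)⌉₊).card ≤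
            ⌈4 * Real.sqrt (b * n)⌉₊ := by
          have h3 : (univ.filter fun u => (σ u).val < ⌈4 * Real.sqrt (b * n)⌉₊).card ≤
              (range ⌈4 * Real.sqrt (b * n)⌉₊).card := by
            refine card_le_card_of_injOn (fun u => (σ u).val) ?_ ?_
            · intro u hu
              have hu' : u ∈ univ.filter fun u => (σ u).val < ⌈4 * Real.sqrt (b * n)⌉₊ := hu
              rw [mem_filter] at hu'
              have : (σ u).val ∈ range ⌈4 * Real.sqrt (b * n)⌉₊ := mem_range.2 hu'.2
              exact this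
            · intro u _ v _ h
              exact σ.injective (Fin.ext h)
          rwa [card_range] at h3
        have h4 : ((univ.filter fun u => (σ u).val < ⌈4 * Real.sqrt (b * n)⌉₊).card : ℝ) ≤
            (⌈4 * Real.sqrt (b * n)⌉₊ : ℝ) := by exact_mod_cast h2
        have h5 := Nat.ceil_lt_add_one (a := 4 * Real.sqrt (b * n)) (by positivity)
        linarith
      · intro u v huv
        have h6 : (CompleteSplit n ⌈4 * Real.sqrt (b * n)⌉₊).Adj (σ u) (σ v) := by
          apply hσ
          rw [pve_map_adj]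
          simpa using huv
        rcases h6.2 with h7 | h7
        · left
          simpa using h7
        · right
          simpa using h7
    · intro u v huv
      rw [pve_map_adj] at huv
      simpa using huv

end Pool.Agent.Q40.KP.PathWidth
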